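import Pool.Agent.Helper486.Saddle.Main

/-!
# A saddle surface which is not a Fréchet limit of smooth saddle surfaces

The saddle disc `f z = (Re z², Im z², Re z + Im z³)` in Euclidean three-space has positive
Fréchet distance from every smooth (immersed) saddle surface.
-/

namespace Pool.Agent.Results.MP_17e62b_gt.BranchedDisc

open Saddle486

/-- There is a saddle surface `f : Disc → E³` (parametrised by the closed unit disc) and `ε > 0`
such that the Fréchet distance of `f` from every smooth saddle surface `g : Disc → E³` is at
least `ε`. -/
theorem result : ∃ f : Disc → E3, IsSaddle discBoundary f ∧ ∃ ε : ℝ, 0 < ε ∧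
    ∀ g : Disc → E3, IsSmoothSaddle g → ENNReal.ofReal ε ≤ frechetDist f g :=
  main

end Pool.Agent.Results.MP_17e62b_gt.BranchedDisc
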