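import Pool.Agent.Helper253.Sad.Sheet

/-!
# A saddle disc in Euclidean 3-space that is not a Fréchet limit of smooth saddle surfaces

The surface is the branched disc `z ↦ (Re z ^ 2, Im z ^ 2, Re (z ^ 3 + z ^ 4))`, `‖z‖ ≤ 1`.
-/

set_option autoImplicit false

namespace Pool.Agent.Results.MP_17e62b_gt.NotSmoothlyApproximable

open Metric Set Topology
open scoped InnerProductSpace Manifold ContDiff

/-- Euclidean space of dimension `n`. -/
abbrev E (n : ℕ) : Type := EuclideanSpace ℝ (Fin n)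

/-- The closed half-plane. -/
abbrev HalfPlane : Type := {p : E 2 // 0 ≤ p 0}

/-- The point `x` of `M` has an open neighbourhood homeomorphic to an open subset of `V`. -/
def LocallyLike (V : Type) [TopologicalSpace V] {M : Type} [TopologicalSpace M] (x : M) : Prop :=
  ∃ U : Set M, IsOpen U ∧ x ∈ U ∧ ∃ W : Set V, IsOpen W ∧ Nonempty (U ≃ₜ W)

/-- The boundary of a two-dimensional manifold with boundary: the points without a neighbourhood
homeomorphic to an open subset of the plane. -/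
def bdry (M : Type) [TopologicalSpace M] : Set M := {x | ¬ LocallyLike (E 2) x}

/-- `M` is a compact connected two-dimensional manifold with non-empty boundary. -/
structure IsSurfaceDomain (M : Type) [TopologicalSpace M] : Prop where
  compact : CompactSpace M
  connected : ConnectedSpace M
  hausdorff : T2Space M
  locally_half_plane : ∀ x : M, LocallyLike HalfPlane x
  boundary_nonempty : (bdry M).Nonempty

/-- The non-empty open set `U` is a crust cut off from `f` by the hyperplane `⟪ν, ·⟫ = c`. -/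
def IsCrust {n : ℕ} {M : Type} [TopologicalSpace M] (f : M → E n) (ν : E n) (c : ℝ)
    (U : Set M) : Prop :=
  ν ≠ 0 ∧ IsOpen U ∧ U.Nonempty ∧ IsCompact (closure U) ∧ Disjoint (closure U) (bdry M) ∧
    (∀ x ∈ U, c < ⟪ν, f x⟫_ℝ) ∧ ∀ x ∈ closure U \ U, ⟪ν, f x⟫_ℝ = c

/-- `f` is a saddle surface: it is continuous and no hyperplane cuts off a crust. -/
def IsSaddle {n : ℕ} {M : Type} [TopologicalSpace M] (f : M → E n) : Prop :=
  Continuous f ∧ ∀ ν c U, ¬ IsCrust f ν c U

/-- `g` is a smooth saddle surface: a saddle surface which near every interior point is a `C²`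
immersion, i.e. every interior point has a local parametrization `φ` by a disc of the plane for
which `g ∘ φ` is of class `C²` with injective differential.  Nothing is required at boundary
points. -/
def IsSmoothSaddle {n : ℕ} {N : Type} [TopologicalSpace N] (g : N → E n) : Prop :=
  IsSaddle g ∧ ∀ x ∉ bdry N, ∃ (φ : E 2 → N) (r : ℝ), 0 < r ∧ φ 0 = x ∧
    IsOpenEmbedding ((ball 0 r).domRestrict φ) ∧ ContDiffOn ℝ 2 (g ∘ φ) (ball 0 r) ∧
    ∀ y ∈ ball (0 : E 2) r, Function.Injective (fderiv ℝ (g ∘ φ) y)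

/-- The Fréchet distance (infinite when the two domains are not homeomorphic). -/
noncomputable def frechetDist {n : ℕ} {M N : Type} [TopologicalSpace M] [TopologicalSpace N]
    (f : M → E n) (g : N → E n) : ENNReal :=
  ⨅ h : M ≃ₜ N, ⨆ x : M, edist (f x) (g (h x))

section topology

variable {V M N : Type} [TopologicalSpace V] [TopologicalSpace M] [TopologicalSpace N]

theorem LocallyLike.map {x : M} (hx : LocallyLike V x) (h : M ≃ₜ N) : LocallyLike V (h x) := by
  obtain ⟨U, hU, hxU, W, hW, ⟨e⟩⟩ := hx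
  exact ⟨h '' U, h.isOpenMap U hU, mem_image_of_mem h hxU, W, hW, ⟨(h.image U).symm.trans e⟩⟩

theorem locallyLike_of_openEmbedding {x : M} {U : Set M} (hU : IsOpen U) (hx : x ∈ U) (e : U → V)
    (he : IsOpenEmbedding e) : LocallyLike V x :=
  ⟨U, hU, hx, range e, he.isOpen_range, ⟨he.toIsEmbedding.toHomeomorph⟩⟩

end topology

/-- The plane as the complex numbers. -/
def toE (w : ℂ) : E 2 := !₂[w.re, w.im]

def ofE (p : E 2) : ℂ := ⟨p 0, p 1⟩

theorem ofE_toE (w : ℂ) : ofE (toE w) = w := by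
  apply Complex.ext <;> simp [ofE, toE]

theorem toE_ofE (p : E 2) : toE (ofE p) = p := by
  ext i
  fin_cases i <;> simp [ofE, toE]

theorem continuous_toE : Continuous toE := by
  unfold toE
  refine (PiLp.continuous_toLp 2 _).comp (continuous_pi fun i => ?_)
  fin_cases i
  · exact Complex.continuous_re
  · exact Complex.continuous_im

theorem continuous_ofE : Continuous ofE := by
  have : ofE = fun p : E 2 => (p 0 : ℂ) + (p 1 : ℂ) * Complex.I := by
    funext p; apply Complex.ext <;> simp [ofE]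
  rw [this]
  fun_prop

/-- The closed unit disc. -/
abbrev Disc : Type := closedBall (0 : ℂ) 1

theorem disc_norm (x : Disc) : ‖(x : ℂ)‖ ≤ 1 := by
  have := x.2
  rwa [mem_closedBall_zero_iff] at this

theorem interior_like {x : Disc} (hx : ‖(x : ℂ)‖ < 1) : LocallyLike (E 2) x := by
  let U : Set Disc := {y | ‖(y : ℂ)‖ < 1}
  have hU : IsOpen U := isOpen_lt (by fun_prop) continuous_const
  have h1 : IsOpenEmbedding (fun y : U => ((y : Disc) : ℂ)) := by
    refine ⟨IsEmbedding.subtypeVal.comp IsEmbedding.subtypeVal, ?_⟩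
    have : range (fun y : U => ((y : Disc) : ℂ)) = ball (0 : ℂ) 1 := by
      ext z
      constructor
      · rintro ⟨y, rfl⟩
        exact mem_ball_zero_iff.2 y.2
      · intro hz
        rw [mem_ball_zero_iff] at hz
        exact ⟨⟨⟨z, mem_closedBall_zero_iff.2 hz.le⟩, hz⟩, rfl⟩
    rw [this]; exact isOpen_ball
  let hE : ℂ ≃ₜ E 2 := ⟨⟨toE, ofE, ofE_toE, toE_ofE⟩, continuous_toE, continuous_ofE⟩
  exact locallyLike_of_openEmbedding hU hx _ (hE.isOpenEmbedding.comp h1)

theorem not_bdry {x : Disc} (hx : ‖(x : ℂ)‖ < 1) : x ∉ bdry Disc := fun h => h (interior_like hx)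

theorem ofE_sub (p q : E 2) : ofE (p - q) = ofE p - ofE q := by
  apply Complex.ext <;> simp [ofE]

theorem norm_ofE (y : E 2) : ‖ofE y‖ = ‖y‖ := by
  have h1 : ‖ofE y‖ ^ 2 = ‖y‖ ^ 2 := by
    rw [EuclideanSpace.norm_sq_eq, Fin.sum_univ_two, Complex.sq_norm, Complex.normSq_apply]
    simp [ofE, sq]
  exact (pow_left_inj₀ (norm_nonneg _) (norm_nonneg _) two_ne_zero).1 h1

theorem dist_ofE (p q : E 2) : dist (ofE p) (ofE q) = dist p q := by
  rw [dist_eq_norm, dist_eq_norm, ← ofE_sub, norm_ofE]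

/-- Invariance of domain at a point with a planar neighbourhood. -/
theorem iod_transfer {N : Type} [TopologicalSpace N] {x : N} (hx : LocallyLike (E 2) x)
    {O : Set N} (hO : IsOpen O) (hxO : x ∈ O) {e : N → E 2} (he : ContinuousOn e O)
    (hi : InjOn e O) : ∃ m > 0, ball (e x) m ⊆ e '' O := by
  classical
  obtain ⟨U, hU, hxU, W, hW, ⟨ψ⟩⟩ := hx
  set v0 : ℂ := ofE (ψ ⟨x, hxU⟩ : E 2) with hv0
  let P : ℂ → N := fun v => if h : toE v ∈ W then ((ψ.symm ⟨toE v, h⟩ : U) : N) else x
  have hWo : IsOpen (toE ⁻¹' W) := hW.preimage continuous_toE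
  have hv0W : toE v0 ∈ W := by
    rw [hv0, toE_ofE]; exact (ψ ⟨x, hxU⟩).2
  have hPc : ContinuousOn P (toE ⁻¹' W) := by
    rw [continuousOn_iff_continuous_domRestrict]
    have h1 : Continuous (fun y : (toE ⁻¹' W : Set ℂ) => (⟨toE y, y.2⟩ : W)) :=
      Continuous.subtype_mk (continuous_toE.comp continuous_subtype_val) _
    have h2 : Continuous (fun y : (toE ⁻¹' W : Set ℂ) => ((ψ.symm ⟨toE y, y.2⟩ : U) : N)) :=
      continuous_subtype_val.comp (ψ.symm.continuous.comp h1)
    convert h2 using 1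
    funext y
    have hy : toE y ∈ W := y.2
    simp only [Set.domRestrict_apply, P, dif_pos hy]
  have hPi : InjOn P (toE ⁻¹' W) := by
    intro y hy z hz hyz
    have hy' : toE y ∈ W := hy
    have hz' : toE z ∈ W := hz
    simp only [P, dif_pos hy', dif_pos hz'] at hyz
    have h3 := ψ.symm.injective (Subtype.ext hyz)
    have h5 := congrArg ofE (congrArg Subtype.val h3)
    simp only [ofE_toE] at h5
    exact h5
  have hP0 : P v0 = x := by
    have h2 : (⟨toE v0, hv0W⟩ : W) = ψ ⟨x, hxU⟩ := by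
      apply Subtype.ext
      show toE v0 = _
      rw [hv0, toE_ofE]
    simp only [P, dif_pos hv0W]
    rw [h2, ψ.symm_apply_apply]
  have hT : IsOpen ((toE ⁻¹' W) ∩ P ⁻¹' O) := hPc.isOpen_inter_preimage hWo hO
  have hv0T : v0 ∈ (toE ⁻¹' W) ∩ P ⁻¹' O := ⟨hv0W, by rw [mem_preimage, hP0]; exact hxO⟩
  obtain ⟨ρ, hρ, hρT⟩ := Metric.isOpen_iff.1 hT v0 hv0T
  have hmem : MapsTo (fun y => v0 + y) (closedBall (0 : ℂ) (ρ / 2)) ((toE ⁻¹' W) ∩ P ⁻¹' O) := by
    intro y hy
    rw [mem_closedBall_zero_iff] at hy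
    refine hρT ?_
    rw [mem_ball, dist_eq_norm, add_sub_cancel_left]; linarith
  have hFc : ContinuousOn (fun y => ofE (e (P (v0 + y)))) (closedBall 0 (ρ / 2)) :=
    continuous_ofE.comp_continuousOn (he.comp ((hPc.mono inter_subset_left).comp
      (by fun_prop) hmem) (fun y hy => (hmem hy).2))
  have hFi : InjOn (fun y => ofE (e (P (v0 + y)))) (closedBall 0 (ρ / 2)) := by
    intro y hy z hz hyz
    have h1 := congrArg toE hyz
    simp only [toE_ofE] at h1
    exact add_left_cancel (hPi (hmem hy).1 (hmem hz).1 (hi (hmem hy).2 (hmem hz).2 h1))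
  obtain ⟨m, hm, hsub⟩ := Pool.Agent.Helper253.Sad.iod (by positivity : 0 < ρ / 2) hFc hFi
  refine ⟨m, hm, fun q hq => ?_⟩
  have h1 : ofE q ∈ ball (ofE (e (P (v0 + 0)))) m := by
    rw [add_zero, hP0, mem_ball, dist_ofE]; exact hq
  obtain ⟨y, hy, hy2⟩ := hsub h1
  have h2 := congrArg toE hy2
  simp only [toE_ofE] at h2
  exact ⟨P (v0 + y), (hmem hy).2, h2⟩

theorem circle_bdry {x : Disc} (hx : ‖(x : ℂ)‖ = 1) : x ∈ bdry Disc := by
  intro hlike
  obtain ⟨m, hm, hsub⟩ := iod_transfer hlike isOpen_univ (mem_univ x)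
    (e := fun y : Disc => toE y) (continuous_toE.comp continuous_subtype_val).continuousOn (by
      intro y _ z _ hyz
      have h5 := congrArg ofE hyz
      simp only [ofE_toE] at h5
      exact Subtype.ext h5)
  have hpt : toE (((1 + m / 2 : ℝ) : ℂ) * x) ∈ ball (toE (x : ℂ)) m := by
    rw [mem_ball, ← dist_ofE, ofE_toE, ofE_toE, dist_eq_norm]
    have e1 : ((1 + m / 2 : ℝ) : ℂ) * x - x = ((m / 2 : ℝ) : ℂ) * x := by push_cast; ring
    rw [e1, norm_mul, hx, mul_one, Complex.norm_real, Real.norm_eq_abs, abs_of_pos (by positivity)]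
    linarith
  obtain ⟨y, -, hy2⟩ := hsub hpt
  have h5 := congrArg ofE hy2
  simp only [ofE_toE] at h5
  have h6 := disc_norm y
  rw [h5, norm_mul, hx, mul_one, Complex.norm_real, Real.norm_eq_abs,
    abs_of_pos (by positivity)] at h6
  linarith

/-! ### The disc is a surface with boundary -/

theorem cayley_norm {w : ℂ} (hw : 0 ≤ w.re) : ‖(1 - w) / (1 + w)‖ ≤ 1 := by
  have h1 : (1 + w) ≠ 0 := by
    intro h
    have := congrArg Complex.re h
    simp at this
    linarith
  rw [norm_div, div_le_one (norm_pos_iff.2 h1)]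
  have h2 : ‖1 - w‖ ^ 2 ≤ ‖1 + w‖ ^ 2 := by
    rw [Complex.sq_norm, Complex.sq_norm, Complex.normSq_apply, Complex.normSq_apply]
    simp only [Complex.sub_re, Complex.add_re, Complex.sub_im, Complex.add_im, Complex.one_re,
      Complex.one_im]
    nlinarith
  exact (pow_le_pow_iff_left₀ (norm_nonneg _) (norm_nonneg _) two_ne_zero).1 h2

theorem cayley_re {z : ℂ} (hz : ‖z‖ ≤ 1) : 0 ≤ ((1 - z) / (1 + z)).re := by
  rw [Complex.div_re, ← add_div]
  refine div_nonneg ?_ (Complex.normSq_nonneg _)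
  have h1 : z.re ^ 2 + z.im ^ 2 ≤ 1 := by
    have h2 := Complex.sq_norm z
    rw [Complex.normSq_apply] at h2
    have h3 := norm_nonneg z
    nlinarith
  simp only [Complex.sub_re, Complex.add_re, Complex.sub_im, Complex.add_im, Complex.one_re,
      Complex.one_im]
  nlinarith

theorem cayley_invol {z : ℂ} (hz : 1 + z ≠ 0) : (1 - (1 - z) / (1 + z)) / (1 + (1 - z) / (1 + z)) = z := by
  have h2 : (1 + (1 - z) / (1 + z)) = 2 / (1 + z) := by field_simp; ring
  have h3 : (1 - (1 - z) / (1 + z)) = 2 * z / (1 + z) := by field_simp; ring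
  rw [h2, h3]
  field_simp

theorem cayley_ne {z : ℂ} (hz : 1 + z ≠ 0) : 1 + (1 - z) / (1 + z) ≠ 0 := by
  have h2 : (1 + (1 - z) / (1 + z)) = 2 / (1 + z) := by field_simp; ring
  rw [h2]
  exact div_ne_zero two_ne_zero hz

theorem halfPlane_ne {w : ℂ} (hw : 0 ≤ w.re) : 1 + w ≠ 0 := by
  intro h
  have := congrArg Complex.re h
  simp at this
  linarith

theorem toE_zero (w : ℂ) : toE w 0 = w.re := by simp [toE]

/-- The Cayley transform as a chart of the disc. -/
noncomputable def cayley : {x : Disc | 1 + (x : ℂ) ≠ 0} ≃ₜ HalfPlane where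
  toFun x := ⟨toE ((1 - ((x : Disc) : ℂ)) / (1 + ((x : Disc) : ℂ))), by
    rw [toE_zero]; exact cayley_re (disc_norm x)⟩
  invFun p := ⟨⟨(1 - ofE p.1) / (1 + ofE p.1), mem_closedBall_zero_iff.2 (cayley_norm p.2)⟩,
    cayley_ne (halfPlane_ne p.2)⟩
  left_inv x := by
    apply Subtype.ext
    apply Subtype.ext
    simp only [ofE_toE]
    exact cayley_invol x.2
  right_inv p := by
    apply Subtype.ext
    simp only
    rw [cayley_invol (halfPlane_ne p.2), toE_ofE]
  continuous_toFun := by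
    refine Continuous.subtype_mk (continuous_toE.comp ?_) _
    exact Continuous.div (by fun_prop) (by fun_prop) (fun x => x.2)
  continuous_invFun := by
    refine Continuous.subtype_mk (Continuous.subtype_mk ?_ _) _
    have h1 : Continuous (fun p : HalfPlane => ofE p.1) := continuous_ofE.comp continuous_subtype_val
    exact Continuous.div (by fun_prop) (by fun_prop) (fun p => halfPlane_ne p.2)

theorem disc_like_of_ne {x : Disc} (hx : 1 + (x : ℂ) ≠ 0) : LocallyLike HalfPlane x := by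
  have hU : IsOpen {x : Disc | 1 + (x : ℂ) ≠ 0} := isOpen_ne_fun (by fun_prop) continuous_const
  exact locallyLike_of_openEmbedding hU hx cayley cayley.isOpenEmbedding

/-- The central symmetry of the disc. -/
def discNeg : Disc ≃ₜ Disc where
  toFun x := ⟨-(x : ℂ), mem_closedBall_zero_iff.2 (by rw [norm_neg]; exact disc_norm x)⟩
  invFun x := ⟨-(x : ℂ), mem_closedBall_zero_iff.2 (by rw [norm_neg]; exact disc_norm x)⟩
  left_inv x := by apply Subtype.ext; simp
  right_inv x := by apply Subtype.ext; simp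
  continuous_toFun := Continuous.subtype_mk (by fun_prop) _
  continuous_invFun := Continuous.subtype_mk (by fun_prop) _

theorem disc_like (x : Disc) : LocallyLike HalfPlane x := by
  by_cases hx : 1 + (x : ℂ) = 0
  · have h1 : 1 + ((discNeg x : Disc) : ℂ) ≠ 0 := by
      show 1 + -(x : ℂ) ≠ 0
      intro h
      have : (2 : ℂ) = 0 := by linear_combination h + hx
      exact two_ne_zero this
    have h2 := (disc_like_of_ne h1).map discNeg.symm
    rwa [discNeg.symm_apply_apply] at h2
  · exact disc_like_of_ne hx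

theorem disc_isSurfaceDomain : IsSurfaceDomain Disc where
  compact := isCompact_iff_compactSpace.1 (isCompact_closedBall _ _)
  connected := isConnected_iff_connectedSpace.1
    ((convex_closedBall (0 : ℂ) 1).isConnected ⟨0, by simp⟩)
  hausdorff := inferInstance
  locally_half_plane := disc_like
  boundary_nonempty := ⟨⟨1, by simp⟩, circle_bdry (by simp)⟩

/-! ### The branched disc -/

/-- The branched disc. -/
noncomputable def F (x : Disc) : E 3 :=
  !₂[((x : ℂ) ^ 2).re, ((x : ℂ) ^ 2).im, ((x : ℂ) ^ 3 + (x : ℂ) ^ 4).re]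

theorem continuous_F : Continuous F := by
  unfold F
  refine (PiLp.continuous_toLp 2 _).comp (continuous_pi fun i => ?_)
  fin_cases i
  · exact Complex.continuous_re.comp (by fun_prop)
  · exact Complex.continuous_im.comp (by fun_prop)
  · exact Complex.continuous_re.comp (by fun_prop)

theorem inner3 (ν p : E 3) : ⟪ν, p⟫_ℝ = ν 0 * p 0 + ν 1 * p 1 + ν 2 * p 2 := by
  rw [PiLp.inner_apply, Fin.sum_univ_three]
  simp [mul_comm]

theorem inner_F (ν : E 3) (x : Disc) : ⟪ν, F x⟫_ℝ =
    (((ν 0 : ℂ) - (ν 1 : ℂ) * Complex.I) * (x : ℂ) ^ 2 + (ν 2 : ℂ) * ((x : ℂ) ^ 3 + (x : ℂ) ^ 4)).re := by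
  rw [inner3]
  have e0 : F x 0 = ((x : ℂ) ^ 2).re := by simp [F]
  have e1 : F x 1 = ((x : ℂ) ^ 2).im := by simp [F]
  have e2 : F x 2 = ((x : ℂ) ^ 3 + (x : ℂ) ^ 4).re := by simp [F]
  have key : ∀ (a b c : ℝ) (z w : ℂ), a * z.re + b * z.im + c * w.re =
      (((a : ℂ) - (b : ℂ) * Complex.I) * z + (c : ℂ) * w).re := by
    intro a b c z w
    simp
  rw [e0, e1, e2, key]

/-- A continuous map of the disc all of whose linear coordinates are real parts of entire
functions is a saddle surface. -/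
theorem isSaddle_of_holo {f : Disc → E 3} (hf : Continuous f)
    (hh : ∀ ν : E 3, ∃ p : ℂ → ℂ, Differentiable ℂ p ∧ ∀ x : Disc, ⟪ν, f x⟫_ℝ = (p x).re) :
    IsSaddle f := by
  refine ⟨hf, ?_⟩
  rintro ν c U ⟨-, hU, ⟨u, hu⟩, -, hdisj, hpos, hfr⟩
  obtain ⟨p, hp0, hpf⟩ := hh ν
  have hcl : ∀ x ∈ closure U, ‖(x : ℂ)‖ < 1 := by
    intro x hx
    refine lt_of_le_of_ne (disc_norm x) fun h => ?_
    exact (Set.disjoint_left.1 hdisj) hx (circle_bdry h)
  obtain ⟨O, hO, rfl⟩ := isOpen_induced_iff.1 hU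
  set A : Set ℂ := O ∩ ball (0 : ℂ) 1 with hA
  have hAo : IsOpen A := hO.inter isOpen_ball
  have hAmem : ∀ x : Disc, (x : ℂ) ∈ O → (x : ℂ) ∈ A := by
    intro x hx
    exact ⟨hx, mem_ball_zero_iff.2 (hcl x (subset_closure hx))⟩
  have hfrA : ∀ z ∈ frontier A, ∃ hz : z ∈ closedBall (0 : ℂ) 1,
      (⟨z, hz⟩ : Disc) ∈ closure ((fun x : Disc => (x : ℂ)) ⁻¹' O) \
        ((fun x : Disc => (x : ℂ)) ⁻¹' O) := by
    intro z hz
    have hzc : z ∈ closure A := frontier_subset_closure hz
    have hzA : z ∉ A := by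
      rw [hAo.frontier_eq] at hz; exact hz.2
    have hz1 : z ∈ closedBall (0 : ℂ) 1 :=
      closure_minimal (inter_subset_right.trans ball_subset_closedBall) isClosed_closedBall hzc
    refine ⟨hz1, ?_, fun h => hzA (hAmem _ h)⟩
    rw [closure_subtype]
    refine closure_mono ?_ hzc
    rintro w ⟨hw1, hw2⟩
    exact ⟨⟨w, ball_subset_closedBall hw2⟩, hw1, rfl⟩
  have hp : Differentiable ℂ (fun z => Complex.exp (p z)) := hp0.cexp
  have hb : Bornology.IsBounded A := isBounded_ball.subset inter_subset_right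
  have hmax := Complex.norm_le_of_forall_mem_frontier_norm_le (f := fun z => Complex.exp (p z))
    (C := Real.exp c) hb hp.diffContOnCl (fun z hz => by
      obtain ⟨hz1, hz2⟩ := hfrA z hz
      have h1 := hfr _ hz2
      rw [hpf] at h1
      rw [Complex.norm_exp]
      exact (congrArg Real.exp h1).le) (subset_closure (hAmem u hu))
  rw [Complex.norm_exp, Real.exp_le_exp] at hmax
  have h2 := hpos u hu
  rw [hpf] at h2
  exact absurd hmax (not_le.2 h2)

/-- The branched disc is a saddle surface. -/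
theorem isSaddle_F : IsSaddle F :=
  isSaddle_of_holo continuous_F fun ν =>
    ⟨fun z => ((ν 0 : ℂ) - (ν 1 : ℂ) * Complex.I) * z ^ 2 + (ν 2 : ℂ) * (z ^ 3 + z ^ 4),
      by fun_prop, fun x => inner_F ν x⟩

/-! ### Transfer of an approximating surface to the disc -/

/-- Space as the product of the plane and the line. -/
def toCR (p : E 3) : ℂ × ℝ := (⟨p 0, p 1⟩, p 2)

theorem continuous_toCR : Continuous toCR := by
  unfold toCR
  refine Continuous.prodMk ?_ (by fun_prop)
  have : (fun p : E 3 => (⟨p 0, p 1⟩ : ℂ)) = fun p : E 3 => (p 0 : ℂ) + (p 1 : ℂ) * Complex.I := by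
    funext p; apply Complex.ext <;> simp
  rw [this]
  fun_prop

theorem toCR_injective : Function.Injective toCR := by
  intro p q h
  have h1 := congrArg (fun x => x.1.re) h
  have h2 := congrArg (fun x => x.1.im) h
  have h3 := congrArg (fun x => x.2) h
  simp only [toCR] at h1 h2 h3
  ext i
  fin_cases i
  · exact h1
  · exact h2
  · exact h3

theorem norm3 (p : E 3) : ‖p‖ ^ 2 = p 0 ^ 2 + p 1 ^ 2 + p 2 ^ 2 := by
  rw [EuclideanSpace.norm_sq_eq, Fin.sum_univ_three]
  simp

theorem toCR_close (p q : E 3) : ‖(toCR p).1 - (toCR q).1‖ ≤ dist p q ∧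
    |(toCR p).2 - (toCR q).2| ≤ dist p q := by
  rw [dist_eq_norm]
  have h := norm3 (p - q)
  simp only [PiLp.sub_apply] at h
  constructor
  · refine abs_le_of_sq_le_sq' ?_ (norm_nonneg _) |>.2
    rw [h, Complex.sq_norm, Complex.normSq_apply]
    simp only [toCR, Complex.sub_re, Complex.sub_im]
    nlinarith [sq_nonneg (p 2 - q 2)]
  · refine abs_le_of_sq_le_sq ?_ (norm_nonneg _)
    rw [h]
    simp only [toCR]
    nlinarith [sq_nonneg (p 0 - q 0), sq_nonneg (p 1 - q 1)]

section transfer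

variable {N : Type} [TopologicalSpace N] {g : N → E 3} (h : Disc ≃ₜ N)

open Classical in
/-- The approximating surface as a map of the plane. -/
noncomputable def XX (h : Disc ≃ₜ N) (g : N → E 3) (z : ℂ) : ℂ × ℝ :=
  if hz : z ∈ closedBall (0 : ℂ) 1 then toCR (g (h ⟨z, hz⟩)) else 0

theorem XX_apply (g : N → E 3) (x : Disc) : XX h g (x : ℂ) = toCR (g (h x)) := by
  rw [XX, dif_pos x.2]

theorem XX_cont (hg : Continuous g) : ContinuousOn (XX h g) (closedBall 0 1) := by
  rw [continuousOn_iff_continuous_domRestrict]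
  have h1 : Continuous (fun x : Disc => toCR (g (h x))) :=
    continuous_toCR.comp (hg.comp h.continuous)
  convert h1 using 1
  funext x
  exact XX_apply h g x

theorem h_not_bdry {x : Disc} (hx : ‖(x : ℂ)‖ < 1) : h x ∉ bdry N :=
  fun hcon => hcon ((interior_like hx).map h)

theorem fn_toCR (a : ℂ) (b c : ℝ) (p : E 3) :
    Pool.Agent.Helper253.Sad.fn a b c (toCR p) = ⟪(!₂[a.re, -a.im, b] : E 3), p⟫_ℝ + c := by
  rw [inner3]
  simp only [Pool.Agent.Helper253.Sad.fn, toCR, Complex.mul_re]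
  simp
  ring

theorem noMax_const (c : ℝ) : Pool.Agent.Helper253.Sad.NoMax (fun _ => c) (ball 0 1) := by
  intro K V m hK hKne hVo hKV hVO h1 h2
  have hVK : V ⊆ K := by
    intro z hz
    by_contra hzK
    obtain ⟨w, hw⟩ := hKne
    have e1 := h1 w hw
    have e2 := h2 z hz hzK
    simp only at e1 e2
    linarith
  have hKeq : K = V := Subset.antisymm hKV hVK
  have hclopen : IsClopen K := ⟨hK.isClosed, hKeq ▸ hVo⟩
  rcases isClopen_iff.1 hclopen with h3 | h3
  · rw [h3] at hKne; exact Set.not_nonempty_empty hKne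
  · have h4 : (2 : ℂ) ∈ V := by rw [← hKeq, h3]; trivial
    have h5 := hVO h4
    rw [mem_ball_zero_iff] at h5
    norm_num at h5

theorem sadd_XX (hg : IsSaddle g) (hN : CompactSpace N) :
    Pool.Agent.Helper253.Sad.Sadd (XX h g) (ball 0 1) := by
  intro a b c
  by_cases hab : a = 0 ∧ b = 0
  · obtain ⟨rfl, rfl⟩ := hab
    have e : (fun z => Pool.Agent.Helper253.Sad.fn 0 0 c (XX h g z)) = fun _ => c := by
      funext z; simp [Pool.Agent.Helper253.Sad.fn]
    rw [e]; exact noMax_const c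
  intro K V m hK hKne hVo hKV hVO h1 h2
  set ν : E 3 := !₂[a.re, -a.im, b] with hν
  have hν0 : ν ≠ 0 := by
    intro h0
    apply hab
    have e0 := congrArg (fun p : E 3 => p 0) h0
    have e1 := congrArg (fun p : E 3 => p 1) h0
    have e2 := congrArg (fun p : E 3 => p 2) h0
    simp [hν] at e0 e1 e2
    exact ⟨Complex.ext e0 e1, e2⟩
  set ψ : ℂ → ℝ := fun z => Pool.Agent.Helper253.Sad.fn a b c (XX h g z) with hψ
  have hψc : ContinuousOn ψ (closedBall 0 1) :=
    Pool.Agent.Helper253.Sad.fn_contOn (XX_cont h hg.1) a b c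
  have hψx : ∀ x : Disc, ψ x = ⟪ν, g (h x)⟫_ℝ + c := by
    intro x
    simp only [hψ]
    rw [XX_apply, fn_toCR]
  obtain ⟨L, hL, hKL, hLV⟩ := exists_compact_between hK hVo hKV
  have hVb : V ⊆ ball (0 : ℂ) 1 := hVO
  have hLcb : L ⊆ closedBall (0 : ℂ) 1 := (hLV.trans hVb).trans ball_subset_closedBall
  -- a level below the maximum separating it from the frontier
  obtain ⟨c1, hc1m, hc1⟩ : ∃ c1 < m, ∀ z ∈ L \ interior L, ψ z < c1 := by
    have hcomp : IsCompact (L \ interior L) := hL.diff isOpen_interior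
    rcases (L \ interior L).eq_empty_or_nonempty with he | hne
    · exact ⟨m - 1, by linarith, by rw [he]; simp⟩
    · obtain ⟨z0, hz0, hz0max⟩ := hcomp.exists_isMaxOn hne (hψc.mono (sdiff_subset.trans hLcb))
      have h3 : ψ z0 < m := h2 z0 (hLV hz0.1) (fun hcon => hz0.2 (hKL hcon))
      refine ⟨(ψ z0 + m) / 2, by linarith, fun z hz => ?_⟩
      have h4 : ψ z ≤ ψ z0 := hz0max hz
      linarith
  set U0 : Set ℂ := interior L ∩ ψ ⁻¹' Ioi c1 with hU0
  have hU0o : IsOpen U0 :=
    (hψc.mono (interior_subset.trans hLcb)).isOpen_inter_preimage isOpen_interior isOpen_Ioi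
  have hU0L : closure U0 ⊆ L := closure_minimal (inter_subset_left.trans interior_subset)
    hL.isClosed
  have hU0f : ∀ z ∈ closure U0, z ∉ U0 → ψ z = c1 := by
    intro z hz hzU
    have hzL := hU0L hz
    have hge : c1 ≤ ψ z := by
      have hcl : IsClosed (L ∩ ψ ⁻¹' Ici c1) :=
        (hψc.mono hLcb).preimage_isClosed_of_isClosed hL.isClosed isClosed_Ici
      have hsub : U0 ⊆ L ∩ ψ ⁻¹' Ici c1 := fun w hw =>
        ⟨interior_subset hw.1, le_of_lt (show c1 < ψ w from hw.2)⟩
      exact (closure_minimal hsub hcl hz).2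
    have hzi : z ∈ interior L := by
      by_contra hcon
      exact absurd (hc1 z ⟨hzL, hcon⟩) (not_lt.2 hge)
    have hle : ψ z ≤ c1 := by
      by_contra hcon
      exact hzU ⟨hzi, not_le.1 hcon⟩
    exact le_antisymm hle hge
  set U : Set Disc := (fun x : Disc => (x : ℂ)) ⁻¹' U0 with hU
  have hUo : IsOpen U := hU0o.preimage continuous_subtype_val
  have hUcl : ∀ x ∈ closure U, (x : ℂ) ∈ closure U0 := fun x hx =>
    map_mem_closure continuous_subtype_val hx (fun y hy => hy)
  have hcl : closure (h '' U) = h '' closure U := (h.image_closure U).symm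
  refine hg.2 ν (c1 - c) (h '' U) ⟨hν0, h.isOpenMap U hUo, ?_, ?_, ?_, ?_, ?_⟩
  · obtain ⟨w, hw⟩ := hKne
    have hwb : w ∈ closedBall (0 : ℂ) 1 := ball_subset_closedBall (hVb (hKV hw))
    refine ⟨h ⟨w, hwb⟩, mem_image_of_mem h ?_⟩
    refine ⟨hKL hw, ?_⟩
    show c1 < ψ w
    rw [h1 w hw]; exact hc1m
  · exact isClosed_closure.isCompact
  · rw [hcl, Set.disjoint_left]
    rintro _ ⟨x, hx, rfl⟩
    have h3 : (x : ℂ) ∈ ball (0 : ℂ) 1 := hVb (hLV (hU0L (hUcl x hx)))
    exact h_not_bdry h (mem_ball_zero_iff.1 h3)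
  · rintro _ ⟨x, hx, rfl⟩
    have h3 : c1 < ψ x := hx.2
    rw [hψx] at h3
    linarith
  · rw [hcl]
    rintro _ ⟨⟨x, hx, rfl⟩, hx2⟩
    have h3 : (x : ℂ) ∉ U0 := fun hcon => hx2 (mem_image_of_mem h hcon)
    have h4 := hU0f x (hUcl x hx) h3
    rw [hψx] at h4
    linarith

/-- A map with injective strict differential is locally injective. -/
theorem locally_injective {G : E 2 → E 3} {A : E 2 →L[ℝ] E 3} (hG : HasStrictFDerivAt G A 0)
    (hA : Function.Injective A) : ∃ r > 0, InjOn G (ball 0 r) := by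
  obtain ⟨k, hk, hAk⟩ := A.toLinearMap.exists_antilipschitzWith (LinearMap.ker_eq_bot.2 hA)
  have hk' : (0 : ℝ) < k := by exact_mod_cast hk
  have h1 := hG.isLittleO.def (show (0 : ℝ) < 1 / (2 * k) by positivity)
  obtain ⟨r, hr, hr2⟩ := Metric.eventually_nhds_iff.1 h1
  refine ⟨r, hr, fun y hy z hz hyz => ?_⟩
  have h2 : dist (y, z) ((0 : E 2), (0 : E 2)) < r := by
    rw [Prod.dist_eq]; exact max_lt hy hz
  have h3 := hr2 h2
  simp only at h3
  rw [hyz, sub_self, zero_sub, norm_neg] at h3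
  have h4 : dist y z ≤ k * dist (A y) (A z) := hAk.le_mul_dist y z
  rw [dist_eq_norm, dist_eq_norm, ← map_sub] at h4
  have h5 : (k : ℝ) * ‖A (y - z)‖ ≤ k * (1 / (2 * k) * ‖y - z‖) :=
    mul_le_mul_of_nonneg_left h3 hk'.le
  have h6 : (k : ℝ) * (1 / (2 * k) * ‖y - z‖) = ‖y - z‖ / 2 := by field_simp
  have h7 : ‖y - z‖ ≤ 0 := by linarith
  exact sub_eq_zero.1 (norm_le_zero_iff.1 h7)

theorem loc_XX (hg : IsSmoothSaddle g) :
    ∀ z ∈ ball (0 : ℂ) 1, ∃ r > 0, InjOn (XX h g) (closedBall z r) := by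
  intro z hz
  set x : Disc := ⟨z, ball_subset_closedBall hz⟩ with hx
  obtain ⟨φ, r, hr, hφ0, hφe, hφd, hφi⟩ := hg.2 (h x) (h_not_bdry h (mem_ball_zero_iff.1 hz))
  have hd : ContDiffAt ℝ 2 (g ∘ φ) 0 := hφd.contDiffAt (ball_mem_nhds _ hr)
  have hs := hd.hasStrictFDerivAt (by norm_num)
  obtain ⟨r1, hr1, hinj⟩ := locally_injective hs (hφi 0 (mem_ball_self hr))
  set B : Set (ball (0 : E 2) r) := {y | (y : E 2) ∈ ball (0 : E 2) r1} with hB
  have hBo : IsOpen B := isOpen_ball.preimage continuous_subtype_val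
  have hWo : IsOpen (((ball 0 r).domRestrict φ) '' B) := hφe.isOpenMap B hBo
  have h0r : (0 : E 2) ∈ ball (0 : E 2) r := mem_ball_self hr
  have h0B : (⟨0, h0r⟩ : ball (0 : E 2) r) ∈ B := by
    show (0 : E 2) ∈ ball (0 : E 2) r1
    exact mem_ball_self hr1
  have hxW : h x ∈ ((ball 0 r).domRestrict φ) '' B := by
    refine ⟨⟨0, h0r⟩, h0B, ?_⟩
    rw [Set.domRestrict_apply]
    exact hφ0
  have hpre : IsOpen (h ⁻¹' (((ball 0 r).domRestrict φ) '' B)) := hWo.preimage h.continuous
  obtain ⟨ρ, hρ, hρ2⟩ := Metric.isOpen_iff.1 hpre x hxW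
  have hz1 : 0 < 1 - ‖z‖ := by rw [mem_ball_zero_iff] at hz; linarith
  refine ⟨min (ρ / 2) (1 - ‖z‖), lt_min (by linarith) hz1, ?_⟩
  have key : ∀ w ∈ closedBall z (min (ρ / 2) (1 - ‖z‖)), ∃ hw : w ∈ closedBall (0 : ℂ) 1,
      h ⟨w, hw⟩ ∈ ((ball 0 r).domRestrict φ) '' B := by
    intro w hw
    rw [mem_closedBall] at hw
    have e1 : dist w z < ρ := lt_of_le_of_lt (hw.trans (min_le_left _ _)) (by linarith)
    have e2 : ‖w‖ ≤ 1 := by
      have e3 := hw.trans (min_le_right _ _)
      rw [dist_eq_norm] at e3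
      have e4 : ‖w‖ ≤ ‖w - z‖ + ‖z‖ := by
        calc ‖w‖ = ‖(w - z) + z‖ := by rw [sub_add_cancel]
          _ ≤ _ := norm_add_le _ _
      linarith
    exact ⟨mem_closedBall_zero_iff.2 e2, hρ2 (show dist (⟨w, _⟩ : Disc) x < ρ from e1)⟩
  intro u hu v hv huv
  obtain ⟨hu1, y, hy, hyu⟩ := key u hu
  obtain ⟨hv1, y', hy', hyv⟩ := key v hv
  have hu2 : XX h g u = toCR (g (h ⟨u, hu1⟩)) := XX_apply h g ⟨u, hu1⟩
  have hv2 : XX h g v = toCR (g (h ⟨v, hv1⟩)) := XX_apply h g ⟨v, hv1⟩
  rw [hu2, hv2] at huv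
  have h3 : g (h ⟨u, hu1⟩) = g (h ⟨v, hv1⟩) := toCR_injective huv
  have h4 : (g ∘ φ) (y : E 2) = (g ∘ φ) (y' : E 2) := by
    have e1 : φ (y : E 2) = h ⟨u, hu1⟩ := hyu
    have e2 : φ (y' : E 2) = h ⟨v, hv1⟩ := hyv
    show g (φ (y : E 2)) = g (φ (y' : E 2))
    rw [e1, e2, h3]
  have h5 : y = y' := Subtype.ext (hinj hy hy' h4)
  have h6 : h ⟨u, hu1⟩ = h ⟨v, hv1⟩ := by rw [← hyu, ← hyv, h5]
  exact congrArg Subtype.val (h.injective h6)

theorem close_XX {δ : ℝ} (hd : ∀ x : Disc, dist (F x) (g (h x)) ≤ δ) :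
    ∀ z ∈ ball (0 : ℂ) 1, ‖(XX h g z).1 - z ^ 2‖ ≤ δ ∧
      |(XX h g z).2 - (z ^ 3 + z ^ 4).re| ≤ δ := by
  intro z hz
  set x : Disc := ⟨z, ball_subset_closedBall hz⟩ with hx
  have e : XX h g z = toCR (g (h x)) := XX_apply h g x
  have e1 : (toCR (F x)).1 = z ^ 2 := by
    apply Complex.ext <;> simp [toCR, F, hx]
  have e2 : (toCR (F x)).2 = (z ^ 3 + z ^ 4).re := by
    simp [toCR, F, hx]
  have h1 := toCR_close (g (h x)) (F x)
  rw [dist_comm, e1, e2] at h1
  rw [e]
  exact ⟨h1.1.trans (hd x), h1.2.trans (hd x)⟩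

end transfer

/-! ### Sanity checks: flat discs, and smooth immersions in the sense of Mathlib -/

/-- The flat disc. -/
noncomputable def flat (x : Disc) : E 3 := !₂[(x : ℂ).re, (x : ℂ).im, 0]

theorem continuous_flat : Continuous flat := by
  unfold flat
  refine (PiLp.continuous_toLp 2 _).comp (continuous_pi fun i => ?_)
  fin_cases i
  · exact Complex.continuous_re.comp (by fun_prop)
  · exact Complex.continuous_im.comp (by fun_prop)
  · exact continuous_const

theorem isSaddle_flat : IsSaddle flat := by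
  refine isSaddle_of_holo continuous_flat fun ν =>
    ⟨fun z => ((ν 0 : ℂ) - (ν 1 : ℂ) * Complex.I) * z, by fun_prop, fun x => ?_⟩
  rw [inner3]
  simp [flat]

/-- The local parametrization of the disc by translations. -/
noncomputable def shift (x : Disc) (y : E 2) : Disc :=
  if h : ‖(x : ℂ) + ofE y‖ ≤ 1 then ⟨(x : ℂ) + ofE y, mem_closedBall_zero_iff.2 h⟩ else x

theorem shift_val {x : Disc} {y : E 2} (hy : y ∈ ball (0 : E 2) (1 - ‖(x : ℂ)‖)) :
    ((shift x y : Disc) : ℂ) = (x : ℂ) + ofE y := by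
  rw [mem_ball_zero_iff] at hy
  have h : ‖(x : ℂ) + ofE y‖ ≤ 1 := by
    have := norm_add_le (x : ℂ) (ofE y)
    rw [norm_ofE] at this
    linarith
  rw [shift, dif_pos h]

/-- The linear part of the parametrized flat disc. -/
noncomputable def flatLin : E 2 →L[ℝ] E 3 :=
  (LinearMap.toContinuousLinearMap
    { toFun := fun y : E 2 => (!₂[y 0, y 1, 0] : E 3)
      map_add' := fun y z => by ext i; fin_cases i <;> simp
      map_smul' := fun c y => by ext i; fin_cases i <;> simp })

theorem flatLin_apply (y : E 2) : flatLin y = (!₂[y 0, y 1, 0] : E 3) := rfl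

theorem isSmoothSaddle_flat : IsSmoothSaddle flat := by
  refine ⟨isSaddle_flat, fun x hx => ?_⟩
  have hx1 : ‖(x : ℂ)‖ < 1 := lt_of_le_of_ne (disc_norm x) fun h => hx (circle_bdry h)
  have hr : 0 < 1 - ‖(x : ℂ)‖ := by linarith
  have heq : ∀ y ∈ ball (0 : E 2) (1 - ‖(x : ℂ)‖), (flat ∘ shift x) y = flatLin y + flat x := by
    intro y hy
    show flat (shift x y) = _
    rw [flatLin_apply]
    simp only [flat]
    rw [shift_val hy]
    ext i
    fin_cases i <;> simp [ofE, add_comm]
  refine ⟨shift x, 1 - ‖(x : ℂ)‖, hr, ?_, ?_, ?_, ?_⟩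
  · apply Subtype.ext
    rw [shift_val (mem_ball_self hr)]
    simp [ofE]
    apply Complex.ext <;> simp
  · have hc : Continuous ((ball (0 : E 2) (1 - ‖(x : ℂ)‖)).domRestrict (shift x)) := by
      rw [continuous_induced_rng]
      have : (Subtype.val ∘ (ball (0 : E 2) (1 - ‖(x : ℂ)‖)).domRestrict (shift x)) =
          fun y => (x : ℂ) + ofE y.1 := by
        funext y
        exact shift_val y.2
      rw [this]
      exact continuous_const.add (continuous_ofE.comp continuous_subtype_val)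
    refine IsOpenEmbedding.of_continuous_injective_isOpenMap hc ?_ ?_
    · intro y z hyz
      have h1 := congrArg (fun w : Disc => (w : ℂ)) hyz
      simp only [Set.domRestrict_apply] at h1
      rw [shift_val y.2, shift_val z.2] at h1
      have h2 := congrArg toE (add_left_cancel h1)
      rw [toE_ofE, toE_ofE] at h2
      exact Subtype.ext h2
    · intro O hO
      obtain ⟨O', hO', rfl⟩ := isOpen_induced_iff.1 hO
      have h1 : (ball (0 : E 2) (1 - ‖(x : ℂ)‖)).domRestrict (shift x) '' (Subtype.val ⁻¹' O') =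
          (fun w : Disc => toE ((w : ℂ) - x)) ⁻¹' (O' ∩ ball (0 : E 2) (1 - ‖(x : ℂ)‖)) := by
        ext w
        constructor
        · rintro ⟨y, hy, rfl⟩
          show toE (((shift x y : Disc) : ℂ) - x) ∈ O' ∩ ball (0 : E 2) (1 - ‖(x : ℂ)‖)
          rw [shift_val y.2, add_sub_cancel_left, toE_ofE]
          exact ⟨hy, y.2⟩
        · rintro ⟨hw1, hw2⟩
          refine ⟨⟨toE ((w : ℂ) - x), hw2⟩, hw1, ?_⟩
          apply Subtype.ext
          show ((shift x (toE ((w : ℂ) - x)) : Disc) : ℂ) = w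
          rw [shift_val hw2, ofE_toE]; ring
      rw [h1]
      exact (hO'.inter isOpen_ball).preimage (continuous_toE.comp (by fun_prop))
  · exact ((flatLin.contDiff.add contDiff_const).contDiffOn).congr heq
  · intro y hy
    have h1 : HasFDerivAt (flat ∘ shift x) flatLin y := by
      have h2 : HasFDerivAt (fun y => flatLin y + flat x) flatLin y :=
        flatLin.hasFDerivAt.add_const _
      refine h2.congr_of_eventuallyEq ?_
      filter_upwards [isOpen_ball.mem_nhds hy] with z hz using heq z hz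
    rw [h1.fderiv]
    intro a b hab
    rw [flatLin_apply, flatLin_apply] at hab
    ext i
    have h0 := congrArg (fun p : E 3 => p 0) hab
    have h1 := congrArg (fun p : E 3 => p 1) hab
    simp at h0 h1
    fin_cases i
    · exact h0
    · exact h1

/-- The class of smooth saddle surfaces contains all `C²` immersions of `C²` surfaces with
boundary, in the sense of Mathlib, which are saddle. -/
theorem isSmoothSaddle_of_contMDiff {n : ℕ} {N : Type} [TopologicalSpace N]
    [ChartedSpace (EuclideanHalfSpace 2) N] [IsManifold (𝓡∂ 2) 2 N] {g : N → E n}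
    (hs : IsSaddle g) (hg : ContMDiff (𝓡∂ 2) 𝓘(ℝ, E n) 2 g)
    (hi : ∀ x, Function.Injective (mfderiv (𝓡∂ 2) 𝓘(ℝ, E n) g x)) : IsSmoothSaddle g := by
  refine ⟨hs, fun x hx => ?_⟩
  have hlike : LocallyLike (E 2) x := not_not.1 hx
  set e := extChartAt (𝓡∂ 2) x with he
  have hsrc : IsOpen e.source := isOpen_extChartAt_source x
  have hxs : x ∈ e.source := mem_extChartAt_source x
  obtain ⟨m, hm, hsub⟩ := iod_transfer hlike hsrc hxs (e := e) (continuousOn_extChartAt x)
    e.injOn
  have htar : ball (e x) m ⊆ e.target := by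
    intro q hq
    obtain ⟨y, hy, rfl⟩ := hsub hq
    exact e.map_source hy
  have hgd : ContDiffOn ℝ 2 (g ∘ e.symm) (ball (e x) m) := by
    have h1 := (contMDiff_iff.1 hg).2 x (g x)
    simp only [extChartAt_model_space_eq_id, PartialEquiv.refl_coe, Function.id_comp,
      PartialEquiv.refl_source, preimage_univ, inter_univ] at h1
    exact h1.mono htar
  -- the differential at the centre
  have hcen : Function.Injective (fderiv ℝ (g ∘ e.symm) (e x)) := by
    have h1 : MDifferentiableAt (𝓡∂ 2) 𝓘(ℝ, E n) g x := (hg.mdifferentiable (by norm_num)) x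
    have h2 := h1.mfderiv
    have h3 : range (𝓡∂ 2) ∈ 𝓝 (e x) :=
      Filter.mem_of_superset (ball_mem_nhds _ hm) (htar.trans (extChartAt_target_subset_range x))
    have h4 := hi x
    rw [h2, fderivWithin_of_mem_nhds h3] at h4
    exact h4
  have hcont : ContinuousOn (fun p => fderiv ℝ (g ∘ e.symm) p) (ball (e x) m) :=
    hgd.continuousOn_fderiv_of_isOpen isOpen_ball (by norm_num)
  have hopen : IsOpen (ball (e x) m ∩ (fun p => fderiv ℝ (g ∘ e.symm) p) ⁻¹'
      {A : E 2 →L[ℝ] E n | Function.Injective A}) :=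
    hcont.isOpen_inter_preimage isOpen_ball ContinuousLinearMap.isOpen_injective
  obtain ⟨r, hr, hrsub⟩ := Metric.isOpen_iff.1 hopen (e x) ⟨mem_ball_self hm, hcen⟩
  have hmaps : MapsTo (fun y : E 2 => e x + y) (ball 0 r) (ball (e x) r) := by
    intro y hy
    rw [mem_ball_zero_iff] at hy
    rw [mem_ball, dist_eq_norm, add_sub_cancel_left]; exact hy
  have hrm : ball (e x) r ⊆ ball (e x) m := fun p hp => (hrsub hp).1
  refine ⟨fun y => e.symm (e x + y), r, hr, ?_, ?_, ?_, ?_⟩
  · simp only [add_zero]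
    exact e.left_inv hxs
  · refine IsOpenEmbedding.of_continuous_injective_isOpenMap ?_ ?_ ?_
    · rw [← continuousOn_iff_continuous_domRestrict]
      refine (continuousOn_extChartAt_symm x).comp (by fun_prop) ?_
      exact fun y hy => htar (hrm (hmaps hy))
    · intro y z hyz
      have h1 : e.symm (e x + y) = e.symm (e x + z) := hyz
      have h2 := e.symm.injOn (htar (hrm (hmaps y.2))) (htar (hrm (hmaps z.2))) h1
      exact Subtype.ext (add_left_cancel h2)
    · intro O hO
      obtain ⟨O', hO', rfl⟩ := isOpen_induced_iff.1 hO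
      have h1 : (ball (0 : E 2) r).domRestrict (fun y => e.symm (e x + y)) ''
          (Subtype.val ⁻¹' O') =
          e.source ∩ e ⁻¹' {p | p - e x ∈ O' ∩ ball (0 : E 2) r} := by
        ext w
        constructor
        · rintro ⟨y, hy, rfl⟩
          have h2 := htar (hrm (hmaps y.2))
          refine ⟨e.map_target h2, ?_⟩
          show e (e.symm (e x + y)) - e x ∈ O' ∩ ball (0 : E 2) r
          rw [e.right_inv h2, add_sub_cancel_left]
          exact ⟨hy, y.2⟩
        · rintro ⟨hw, hw2⟩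
          have hw3 : e w - e x ∈ O' ∩ ball (0 : E 2) r := hw2
          refine ⟨⟨e w - e x, hw3.2⟩, hw3.1, ?_⟩
          show e.symm (e x + (e w - e x)) = w
          rw [add_sub_cancel]
          exact e.left_inv hw
      rw [h1]
      refine (continuousOn_extChartAt x).isOpen_inter_preimage hsrc ?_
      exact (hO'.inter isOpen_ball).preimage (by fun_prop)
  · have h1 : ContDiffOn ℝ 2 ((g ∘ e.symm) ∘ fun y => e x + y) (ball 0 r) :=
      hgd.comp (by fun_prop) (fun y hy => hrm (hmaps hy))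
    exact h1
  · intro y hy
    have h1 := (hrsub (hmaps hy)).2
    have h2 : fderiv ℝ (g ∘ fun y => e.symm (e x + y)) y = fderiv ℝ (g ∘ e.symm) (e x + y) := by
      have := fderiv_comp_add_left (𝕜 := ℝ) (f := g ∘ e.symm) (x := y) (e x)
      exact this
    rw [h2]
    exact h1

/-- **Main theorem.**  Some saddle surface in Euclidean 3-space is at positive Fréchet distance
from every smooth saddle surface. -/
theorem result : ∃ (M : Type) (_ : TopologicalSpace M) (f : M → E 3),
    IsSurfaceDomain M ∧ IsSaddle f ∧ ∃ ε : ℝ, 0 < ε ∧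
      ∀ (N : Type) [TopologicalSpace N] (g : N → E 3),
        IsSurfaceDomain N → IsSmoothSaddle g → ENNReal.ofReal ε ≤ frechetDist f g := by
  obtain ⟨δ, hδ, hcore⟩ := Pool.Agent.Helper253.Sad.core
  refine ⟨Disc, inferInstance, F, disc_isSurfaceDomain, isSaddle_F, δ, hδ, ?_⟩
  intro N _ g hN hg
  by_contra hcon
  rw [not_le, frechetDist, iInf_lt_iff] at hcon
  obtain ⟨h, hh⟩ := hcon
  have hd : ∀ x : Disc, dist (F x) (g (h x)) ≤ δ := by
    intro x
    have h1 := (le_iSup (fun x : Disc => edist (F x) (g (h x))) x).trans hh.le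
    rw [edist_dist] at h1
    exact (ENNReal.ofReal_le_ofReal_iff hδ.le).1 h1
  exact hcore (XX h g) (XX_cont h hg.1.1) (sadd_XX h hg.1 hN.compact) (loc_XX h hg)
    (close_XX h hd)

end Pool.Agent.Results.MP_17e62b_gt.NotSmoothlyApproximable
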